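import Mathlib

/-!
# Two-point populations are not extremal for sums of sampled errors

We refute the conjecture that, among all finite populations of error sizes in `[0,1]` with a given
mean `m`, the probability `P(S ≤ c)` (`n` draws with replacement, `c < n m`) is always maximised by
a population with exactly two error sizes, one of which is `0` or `1`.

The counterexample: `n = 2`, `m = 17/20`, `c = 9/10`, and the population of `50` items with error
sizes `0` (4 items), `9/10` (35 items), `1` (11 items).
-/

namespace Pool.Agent.Results.MP_c8004b_pr.ThreeSizes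

/-- `e : Fin N → ℝ` is a population with error sizes in `[0,1]` and mean error `m`. -/
structure IsPopulation (m : ℝ) {N : ℕ} (e : Fin N → ℝ) : Prop where
  pos : 0 < N
  mem : ∀ i, 0 ≤ e i ∧ e i ≤ 1
  mean : (∑ i, e i) / (N : ℝ) = m

/-- The probability that the sum of the error sizes of `n` items drawn independently and uniformly
(with replacement) is at most `c`. -/
noncomputable def cdf (n : ℕ) (c : ℝ) {N : ℕ} (e : Fin N → ℝ) : ℝ :=
  (Set.ncard {s : Fin n → Fin N | ∑ j, e (s j) ≤ c} : ℝ) / (N : ℝ) ^ n

/-- The population has exactly two error sizes, and one of them is `0` or `1`. -/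
def IsTwoSize {N : ℕ} (e : Fin N → ℝ) : Prop :=
  (Set.range e).ncard = 2 ∧ ((0 : ℝ) ∈ Set.range e ∨ (1 : ℝ) ∈ Set.range e)

/-- integer weights (ten times the error sizes) of the counterexample population -/
def wt (i : Fin 50) : ℕ := if i.val < 4 then 0 else if i.val < 39 then 9 else 10

/-- The population with 4 items of size `0`, 35 items of size `9/10` and 11 items of size `1`. -/
noncomputable def pop (i : Fin 50) : ℝ := (wt i : ℝ) / 10

lemma wt_sum : ∑ i, wt i = 425 := by decide +kernel

lemma wt_le (i : Fin 50) : wt i ≤ 10 := by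
  revert i; decide +kernel

lemma pairs_card :
    (Finset.univ.filter (fun p : Fin 50 × Fin 50 => wt p.1 + wt p.2 ≤ 9)).card = 296 := by
  decide +kernel

/-- equivalence of `Fin 2 → α` with pairs, at the level of cardinalities of sets -/
lemma ncard_two {N : ℕ} (e : Fin N → ℝ) (c : ℝ) :
    Set.ncard {s : Fin 2 → Fin N | ∑ j, e (s j) ≤ c}
      = Set.ncard {p : Fin N × Fin N | e p.1 + e p.2 ≤ c} := by
  apply Set.ncard_congr (fun s _ => (s 0, s 1))
  · intro s hs
    simpa [Fin.sum_univ_two] using hs
  · intro s t _ _ h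
    funext j
    have h1 : s 0 = t 0 := congrArg Prod.fst h
    have h2 : s 1 = t 1 := congrArg Prod.snd h
    fin_cases j
    · exact h1
    · exact h2
  · intro p hp
    refine ⟨![p.1, p.2], ?_, ?_⟩
    · simpa [Fin.sum_univ_two] using hp
    · simp

lemma pop_isPopulation : IsPopulation (17 / 20) pop := by
  refine ⟨by norm_num, ?_, ?_⟩
  · intro i
    unfold pop
    have := wt_le i
    have h : (wt i : ℝ) ≤ 10 := by exact_mod_cast this
    constructor
    · positivity
    · linarith
  · unfold pop
    rw [← Finset.sum_div, ← Nat.cast_sum, wt_sum]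
    norm_num

lemma pop_cdf : cdf 2 (9 / 10) pop = 296 / 2500 := by
  unfold cdf
  rw [ncard_two]
  have : {p : Fin 50 × Fin 50 | pop p.1 + pop p.2 ≤ 9 / 10}
      = ↑(Finset.univ.filter (fun p : Fin 50 × Fin 50 => wt p.1 + wt p.2 ≤ 9)) := by
    ext p
    simp only [Set.mem_ofPred_eq, Finset.coe_filter, Finset.mem_univ, true_and]
    unfold pop
    constructor
    · intro h
      have : (wt p.1 : ℝ) + wt p.2 ≤ 9 := by linarith
      exact_mod_cast this
    · intro h
      have : (wt p.1 : ℝ) + wt p.2 ≤ 9 := by exact_mod_cast h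
      linarith
  rw [this, Set.ncard_coe_finset, pairs_card]
  norm_num

/-- Upper bound for pairs when one size is `0`. -/
lemma bound_zero {N : ℕ} (e : Fin N → ℝ) (v : ℝ) (hN : 0 < N)
    (hval : ∀ i, e i = 0 ∨ e i = v) (hv1 : v ≤ 1)
    (hmean : (∑ i, e i) / (N : ℝ) = 17 / 20) :
    cdf 2 (9 / 10) e ≤ 35 / 324 := by
  classical
  have hNr : (0 : ℝ) < N := by exact_mod_cast hN
  set A : Finset (Fin N) := Finset.univ.filter (fun i => e i ≠ 0) with hA
  have hsum : ∑ i, e i = (A.card : ℝ) * v := by
    have h1 : ∑ i, e i = ∑ i ∈ A, e i := by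
      rw [hA, Finset.sum_filter_ne_zero]
    rw [h1]
    have h2 : ∀ i ∈ A, e i = v := by
      intro i hi
      rw [hA, Finset.mem_filter] at hi
      rcases hval i with h | h
      · exact absurd h hi.2
      · exact h
    rw [Finset.sum_congr rfl h2, Finset.sum_const, nsmul_eq_mul]
  have hmean' : (A.card : ℝ) * v = 17 / 20 * N := by
    rw [← hsum]; field_simp at hmean; linarith
  have hAN : (A.card : ℝ) ≤ N := by
    have := Finset.card_le_univ A
    simp only [Fintype.card_fin] at this
    exact_mod_cast this
  have hApos : 0 < (A.card : ℝ) := by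
    by_contra h
    have h0 : (A.card : ℝ) = 0 := le_antisymm (not_lt.mp h) (by positivity)
    rw [h0] at hmean'
    nlinarith
  have hvpos : 0 < v := by
    by_contra h
    have : (A.card : ℝ) * v ≤ 0 := mul_nonpos_of_nonneg_of_nonpos hApos.le (not_lt.mp h)
    nlinarith
  have hv : 17 / 20 ≤ v := by
    by_contra h
    push Not at h
    have : (A.card : ℝ) * v < N * (17 / 20) := by
      calc (A.card : ℝ) * v ≤ N * v := by nlinarith
        _ < N * (17 / 20) := by nlinarith
    linarith
  unfold cdf
  rw [ncard_two]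
  -- complement counting
  have hset : Set.ncard {p : Fin N × Fin N | e p.1 + e p.2 ≤ 9 / 10} + A.card * A.card
      ≤ N * N := by
    have hdisj : Disjoint {p : Fin N × Fin N | e p.1 + e p.2 ≤ 9 / 10}
        (↑(A ×ˢ A) : Set (Fin N × Fin N)) := by
      rw [Set.disjoint_left]
      rintro p hp hp2
      rw [Finset.mem_coe, Finset.mem_product] at hp2
      have h1 : e p.1 = v := by
        have := hp2.1
        rw [hA, Finset.mem_filter] at this
        rcases hval p.1 with h | h
        · exact absurd h this.2
        · exact h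
      have h2 : e p.2 = v := by
        have := hp2.2
        rw [hA, Finset.mem_filter] at this
        rcases hval p.2 with h | h
        · exact absurd h this.2
        · exact h
      simp only [Set.mem_ofPred_eq, h1, h2] at hp
      linarith
    have h3 := Set.ncard_union_eq hdisj (Set.toFinite _) (Set.toFinite _)
    rw [Set.ncard_coe_finset, Finset.card_product] at h3
    rw [← h3]
    have h4 := Set.ncard_le_ncard (Set.subset_univ
      ({p : Fin N × Fin N | e p.1 + e p.2 ≤ 9 / 10} ∪ ↑(A ×ˢ A))) (Set.toFinite _)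
    simpa [Set.ncard_univ] using h4
  by_cases hv9 : v ≤ 9 / 10
  · have hset' : (Set.ncard {p : Fin N × Fin N | e p.1 + e p.2 ≤ 9 / 10} : ℝ)
        + A.card * A.card ≤ N * N := by exact_mod_cast hset
    have hA17 : 17 / 18 * (N : ℝ) ≤ A.card := by
      have : (A.card : ℝ) * v ≤ A.card * (9 / 10) := by nlinarith
      nlinarith
    rw [div_le_iff₀ (by positivity)]
    nlinarith
  · push Not at hv9
    -- only pairs (0,0)
    have hle : Set.ncard {p : Fin N × Fin N | e p.1 + e p.2 ≤ 9 / 10}
        ≤ (Finset.univ \ A : Finset (Fin N)).card * (Finset.univ \ A : Finset (Fin N)).card := by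
      rw [← Finset.card_product, ← Set.ncard_coe_finset]
      apply Set.ncard_le_ncard _ (Set.toFinite _)
      intro p hp
      simp only [Set.mem_ofPred_eq] at hp
      rw [Finset.mem_coe, Finset.mem_product, Finset.mem_sdiff, Finset.mem_sdiff, hA]
      simp only [Finset.mem_univ, Finset.mem_filter, true_and, not_not]
      rcases hval p.1 with h1 | h1 <;> rcases hval p.2 with h2 | h2 <;>
        simp only [h1, h2] at hp ⊢
      · exact ⟨trivial, trivial⟩
      · exfalso; linarith
      · exfalso; linarith
      · exfalso; linarith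
    have hcard : ((Finset.univ \ A : Finset (Fin N)).card : ℝ) = N - A.card := by
      rw [Finset.card_sdiff_of_subset (Finset.subset_univ _),
        Nat.cast_sub (Finset.card_le_card (Finset.subset_univ A))]
      simp
    have hle' : (Set.ncard {p : Fin N × Fin N | e p.1 + e p.2 ≤ 9 / 10} : ℝ)
        ≤ (N - A.card) * (N - A.card) := by
      rw [← hcard]; exact_mod_cast hle
    have hA17 : 17 / 20 * (N : ℝ) ≤ A.card := by
      have : (A.card : ℝ) * v ≤ A.card * 1 := by nlinarith
      nlinarith
    rw [div_le_iff₀ (by positivity)]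
    nlinarith

/-- Upper bound for pairs when one size is `1`. -/
lemma bound_one {N : ℕ} (e : Fin N → ℝ) (v : ℝ) (hN : 0 < N)
    (hval : ∀ i, e i = 1 ∨ e i = v) (hv0 : 0 ≤ v) (hv1 : v < 1)
    (hmean : (∑ i, e i) / (N : ℝ) = 17 / 20) :
    cdf 2 (9 / 10) e ≤ 35 / 324 := by
  classical
  have hNr : (0 : ℝ) < N := by exact_mod_cast hN
  set B : Finset (Fin N) := Finset.univ.filter (fun i => e i = v) with hB
  have hsum : ∑ i, (1 - e i) = (B.card : ℝ) * (1 - v) := by
    have h1 : ∑ i, (1 - e i) = ∑ i ∈ B, (1 - e i) := by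
      rw [hB, Finset.sum_filter]
      apply Finset.sum_congr rfl
      intro i _
      split_ifs with h
      · rfl
      · rcases hval i with h' | h'
        · rw [h']; ring
        · exact absurd h' h
    rw [h1]
    have h2 : ∀ i ∈ B, 1 - e i = 1 - v := by
      intro i hi
      rw [hB, Finset.mem_filter] at hi
      rw [hi.2]
    rw [Finset.sum_congr rfl h2, Finset.sum_const, nsmul_eq_mul]
  have hsum2 : ∑ i, (1 - e i) = N - ∑ i, e i := by
    rw [Finset.sum_sub_distrib]; simp
  have hmean' : (B.card : ℝ) * (1 - v) = 3 / 20 * N := by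
    rw [← hsum, hsum2]
    have : ∑ i, e i = 17 / 20 * N := by field_simp at hmean; linarith
    rw [this]; ring
  unfold cdf
  rw [ncard_two]
  by_cases hv : v ≤ 9 / 20
  · have hle : Set.ncard {p : Fin N × Fin N | e p.1 + e p.2 ≤ 9 / 10} ≤ B.card * B.card := by
      rw [← Finset.card_product, ← Set.ncard_coe_finset]
      apply Set.ncard_le_ncard _ (Set.toFinite _)
      intro p hp
      simp only [Set.mem_ofPred_eq] at hp
      rw [Finset.mem_coe, Finset.mem_product, hB]
      simp only [Finset.mem_univ, Finset.mem_filter, true_and]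
      rcases hval p.1 with h1 | h1 <;> rcases hval p.2 with h2 | h2 <;>
        rw [h1, h2] at hp
      · exfalso; linarith
      · exfalso; linarith
      · exfalso; linarith
      · exact ⟨h1, h2⟩
    have hle' : (Set.ncard {p : Fin N × Fin N | e p.1 + e p.2 ≤ 9 / 10} : ℝ)
        ≤ B.card * B.card := by exact_mod_cast hle
    have hB3 : (B.card : ℝ) ≤ 3 / 11 * N := by
      have : (B.card : ℝ) * (11 / 20) ≤ B.card * (1 - v) := by
        apply mul_le_mul_of_nonneg_left _ (by positivity)
        linarith
      linarith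
    have hB0 : (0 : ℝ) ≤ B.card := by positivity
    rw [div_le_iff₀ (by positivity)]
    nlinarith
  · push Not at hv
    have hemp : {p : Fin N × Fin N | e p.1 + e p.2 ≤ 9 / 10} = ∅ := by
      ext p
      simp only [Set.mem_ofPred_eq, Set.mem_empty_iff_false, iff_false, not_le]
      rcases hval p.1 with h1 | h1 <;> rcases hval p.2 with h2 | h2 <;> rw [h1, h2] <;> linarith
    rw [hemp]
    simp
    norm_num

lemma two_size_bound {N : ℕ} (e : Fin N → ℝ) (hpop : IsPopulation (17 / 20) e)
    (h2 : IsTwoSize e) : cdf 2 (9 / 10) e ≤ 35 / 324 := by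
  obtain ⟨hcard, h01⟩ := h2
  obtain ⟨x, y, hxy, hrange⟩ := Set.ncard_eq_two.mp hcard
  have hval : ∀ i, e i = x ∨ e i = y := by
    intro i
    have : e i ∈ Set.range e := ⟨i, rfl⟩
    rw [hrange] at this
    simpa using this
  have hx : ∃ i, e i = x := by
    have : x ∈ Set.range e := by rw [hrange]; simp
    exact this
  have hy : ∃ i, e i = y := by
    have : y ∈ Set.range e := by rw [hrange]; simp
    exact this
  obtain ⟨ix, hix⟩ := hx
  obtain ⟨iy, hiy⟩ := hy
  have hx01 := hpop.mem ix
  have hy01 := hpop.mem iy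
  rw [hix] at hx01
  rw [hiy] at hy01
  rcases h01 with h | h
  · rw [hrange] at h
    simp only [Set.mem_insert_iff, Set.mem_singleton_iff] at h
    rcases h with h | h
    · exact bound_zero e y hpop.pos (fun i => by rw [h]; exact hval i) hy01.2 hpop.mean
    · exact bound_zero e x hpop.pos (fun i => by rw [h]; exact (hval i).symm) hx01.2 hpop.mean
  · rw [hrange] at h
    simp only [Set.mem_insert_iff, Set.mem_singleton_iff] at h
    rcases h with h | h
    · refine bound_one e y hpop.pos (fun i => by rw [h]; exact hval i) hy01.1 ?_ hpop.mean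
      exact lt_of_le_of_ne hy01.2 (fun h' => hxy (by rw [← h, h']))
    · refine bound_one e x hpop.pos (fun i => by rw [h]; exact (hval i).symm) hx01.1 ?_ hpop.mean
      exact lt_of_le_of_ne hx01.2 (fun h' => hxy (by rw [← h, h']))

/-- The conjecture of the problem (Q1). -/
def Conjecture : Prop :=
  ∀ n : ℕ, 1 ≤ n → ∀ m : ℝ, 0 < m → m < 1 → ∀ c : ℝ, c < n * m →
    ∃ (N : ℕ) (e : Fin N → ℝ), IsPopulation m e ∧ IsTwoSize e ∧
      ∀ (N' : ℕ) (e' : Fin N' → ℝ), IsPopulation m e' → cdf n c e' ≤ cdf n c e

/-- **The conjecture is false.**  Moreover it fails robustly: for `n = 2`, `m = 17/20`, `c = 9/10`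
(so `c < n m`) there is a population of 50 items with mean `m` whose probability `P(S ≤ c)` exceeds
by at least `1/100` that of every population of mean `m` with exactly two error sizes one of which
is `0` or `1`. -/
theorem result :
    ¬ Conjecture ∧
    ∃ e₀ : Fin 50 → ℝ, IsPopulation (17 / 20) e₀ ∧
      ∀ (N : ℕ) (e : Fin N → ℝ), IsPopulation (17 / 20) e → IsTwoSize e →
        cdf 2 (9 / 10) e + 1 / 100 ≤ cdf 2 (9 / 10) e₀ := by
  have key : ∀ (N : ℕ) (e : Fin N → ℝ), IsPopulation (17 / 20) e → IsTwoSize e →
      cdf 2 (9 / 10) e + 1 / 100 ≤ cdf 2 (9 / 10) pop := by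
    intro N e h1 h2
    have := two_size_bound e h1 h2
    rw [pop_cdf]
    linarith
  refine ⟨?_, pop, pop_isPopulation, key⟩
  intro h
  obtain ⟨N, e, he, h2, hmax⟩ := h 2 (by norm_num) (17 / 20) (by norm_num) (by norm_num) (9 / 10)
    (by norm_num)
  have h3 := hmax 50 pop pop_isPopulation
  have h4 := key N e he h2
  linarith

end Pool.Agent.Results.MP_c8004b_pr.ThreeSizes
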